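import Pool.Agent.Lib.MP_bb72f8_ag.Ins.Transfer

/-!
# Plane linear systems with collinear base points: when are they as good as general ones?
-/

set_option autoImplicit false

namespace Pool.Agent.Results.MP_bb72f8_ag.ExactRange

open Pool.Agent.BbIns

universe u

/-- Let `K` be an infinite field, `1 ≤ r ≤ n`, `r ≠ 3`, and let `d ≥ 4` be a fixed degree. Then
`L(d; m_1, ..., m_n) ≠ ∅` for general points is equivalent to `L(d; m_1, ..., m_n) ≠ ∅` for points
of which the first `r` are collinear and which are otherwise general, for all multiplicities with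
`m_1 + ... + m_r ≤ d`, if and only if `r ≤ 2` or `r ≥ n - 1`. -/
theorem result (K : Type u) [Field K] [Infinite K] (n r d : ℕ) (h1 : 1 ≤ r) (hn : r ≤ n)
    (h3 : r ≠ 3) (hd : 4 ≤ d) :
    (∀ m : Fin n → ℕ, ∑ i ∈ Finset.univ.filter (fun i : Fin n => i.val < r), m i ≤ d →
      (General K d m ↔ CollinearGeneral K r d m)) ↔ (r ≤ 2 ∨ n ≤ r + 1) :=
  main h1 hn h3 hd

end Pool.Agent.Results.MP_bb72f8_ag.ExactRange
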